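import Pool.Agent.Lib.MP_799fdf_al.Crt.SysC
import Pool.Agent.Lib.MP_799fdf_al.Crt.QuoB
import Pool.Agent.Lib.MP_799fdf_al.Crt.CycA
import Pool.Agent.Lib.MP_799fdf_al.Tx.Fin

/-! # The criterion, second version: definitions -/

set_option autoImplicit false

open scoped commutatorElement

namespace MP799fdf

namespace Cry

open Inn
open Cop (TT TA)
open Tw (TB TC)
open Tz (CZ Dg)
open Crt (Cyc lep)

section

variable {G : Type} [Group G]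

/-- `τ` lifts `σ` -/
def Lift {R R' Z Z' : Subgroup G} [Z.Normal] [Z'.Normal] (σ : (G ⧸ Z) ≃* (G ⧸ Z'))
    (τ : R ≃* R') : Prop :=
  ∀ r : R, (((τ r : R') : G) : G ⧸ Z') = σ ((r : G) : G ⧸ Z)

/-- `σ` is trivial modulo `R Z` -/
def Tri (R : Subgroup G) {Z : Subgroup G} [Z.Normal] (σ : (G ⧸ Z) ≃* (G ⧸ Z)) : Prop :=
  ∀ x y : G, σ (x : G ⧸ Z) = (y : G ⧸ Z) → x⁻¹ * y ∈ R ⊔ Z

/-- `h ∈ N` has order `p` and all lifts leave `⟨h⟩` invariant -/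
def Inv (p : ℕ) (R N Z : Subgroup G) [Z.Normal] (h : R) : Prop :=
  (h : G) ∈ N ∧ h ≠ 1 ∧ h ^ p = 1 ∧
    ∀ (σ : (G ⧸ Z) ≃* (G ⧸ Z)) (τ : R ≃* R), Lift σ τ → τ h ∈ Subgroup.zpowers h

/-- some lift of an automorphism that is trivial modulo `R Z` moves `h` -/
def Mov (R Z : Subgroup G) [Z.Normal] (h : R) : Prop :=
  ∃ (σ : (G ⧸ Z) ≃* (G ⧸ Z)) (τ : R ≃* R), Lift σ τ ∧ Tri R σ ∧ τ h ≠ h

def D1 (p : ℕ) (R N Z : Subgroup G) [Z.Normal] : Prop :=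
  Cyc p N ∨ ∃ h : R, Inv p R N Z h ∧ ¬ Mov R Z h

def D2 (p : ℕ) (R Z : Subgroup G) : Prop :=
  p = 2 ∨ ∃ B : Subgroup G, B.Normal ∧ R ⊔ Z ≤ B ∧ ⁅B, B⁆ ≤ R ⊔ Z ∧ p ∣ (R ⊔ Z).relIndex B

def Dir (R N : Subgroup G) : Prop :=
  ∃ D : Subgroup G, D.Normal ∧ R ⊓ D = ⊥ ∧
    ∀ L M : Subgroup G, Loc L M → M.relIndex L = N.relIndex R → L = R ∨ L ≤ D

/-- all isomorphisms lift -/
def LP (R Z : Subgroup G) [Z.Normal] : Prop :=
  ∀ (R' N' Z' : Subgroup G) [Z'.Normal], Loc R' N' → Z' = Subgroup.centralizer (R' : Set G) →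
    ∀ σ : (G ⧸ Z) ≃* (G ⧸ Z'), ∃ τ : R ≃* R', Lift σ τ

/-- the criterion for one local pair -/
def Crit (R N Z : Subgroup G) [Z.Normal] : Prop :=
  ∀ p : ℕ, p.Prime → p ∣ Nat.card N → p ∣ (R ⊔ Z).index → ∀ h : R, Inv p R N Z h → Mov R Z h

end

/-- the centraliser as a normal subgroup -/
abbrev ZZ {G : Type} [Group G] (τ : TT G) : Subgroup G := cen τ.1.1 τ.1.2 τ.2.nN

end Cry

end MP799fdf
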