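import Pool.Agent.Lib.MP_799fdf_al.Cry.SolA

set_option autoImplicit false

open scoped commutatorElement

namespace MP799fdf

namespace Cry

open Inn
open Cop (TT TA)
open Tz (CZ Dg)

/-- PROOF. `Cop.solv_quot` for `W = ⨆ i : Tz.LI G, i.1` gives `n` with `dser ⊤ n ≤ W`. `W ≤ R ⊔ cen R N`: for a local
subgroup `L ≠ R` all elements of `L` commute with those of `R` (`Cop.loc_comm`), so `L ≤ cen R N` (`Cop.cen_iff`).
`exists_step` with `S = R ⊔ cen R N`. -/
theorem sol_sec {G : Type} [Group G] [Finite G] (h1 : CZ G) {R N : Subgroup G} (h : Loc R N)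
    {p : ℕ} (hp : p.Prime) (hd : p ∣ (R ⊔ cen R N h.nN).index) :
    ∃ A B : Subgroup G, A.Normal ∧ B.Normal ∧ R ⊔ cen R N h.nN ≤ A ∧ A < B ∧ ⁅B, B⁆ ≤ A ∧
      p ∣ A.relIndex B := by
  have hRn := h.nR
  have hNn := h.nN
  have hCn := cen_normal R N h.nR h.nN
  have hSn : (R ⊔ cen R N h.nN).Normal := Subgroup.sup_normal R (cen R N h.nN)
  obtain ⟨n, hn⟩ := Cop.solv_quot (R ⊔ cen R N h.nN) hSn (fun L M hL => by
    by_cases hLR : L = R
    · rw [hLR]
      exact le_sup_left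
    · refine le_trans (fun x hx => ?_) le_sup_right
      rw [Cop.cen_iff h (h1 R N h)]
      exact fun y hy => Cop.loc_comm hL h (h1 L M hL) (h1 R N h) hLR x hx y hy)
  exact exists_step (R ⊔ cen R N h.nN) n hn hp hd

end Cry

end MP799fdf
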