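import Pool.Agent.Lib.MP_799fdf_al.Cry.Defs
import Pool.Agent.Lib.MP_799fdf_al.Cry.SolB

/-! # The infinite direction -/

set_option autoImplicit false

open scoped commutatorElement

namespace MP799fdf

namespace Cry

open Inn
open Tz (CZ Dg)
open Crt (quo_cen quo_uniq quo_rho quo_theta quo_rel quo_lift zp_two)

variable {G : Type} [Group G] {R N D Z A B : Subgroup G} [D.Normal]

theorem quo_uniq2 [Finite G] (hRD : R ⊓ D = ⊥) (hloc : Loc R N)
    (hother : ∀ L M : Subgroup G, Loc L M → M.relIndex L = N.relIndex R → L = R ∨ L ≤ D)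
    (L M : Subgroup (G ⧸ D)) (h : Loc L M)
    (hi : M.relIndex L = (N.map (QuotientGroup.mk' D)).relIndex (R.map (QuotientGroup.mk' D))) :
    L = R.map (QuotientGroup.mk' D) := by
  have hNn := hloc.nN
  obtain ⟨L', M', h', hmap, hM'⟩ := loc_lift (QuotientGroup.mk' D) (QuotientGroup.mk'_surjective D) h
  have e1 : M'.relIndex L' = M.relIndex L := by
    rw [hM', inf_comm, Subgroup.inf_relIndex_right, Subgroup.relIndex_comap, hmap]
  have e2 : (N.map (QuotientGroup.mk' D)).relIndex (R.map (QuotientGroup.mk' D)) =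
      N.relIndex R := by
    rw [← Subgroup.relIndex_comap, Subgroup.comap_map_eq, QuotientGroup.ker_mk',
      ← Subgroup.inf_relIndex_right]
    congr 1
    apply le_antisymm
    · rintro x ⟨hx1, hx2⟩
      obtain ⟨n, hn, d, hd, rfl⟩ := Subgroup.mem_sup_of_normal_right.1 hx1
      have h3 : d ∈ R ⊓ D := by
        refine ⟨?_, hd⟩
        have h4 := R.mul_mem (R.inv_mem (hloc.lt.le hn)) hx2
        rwa [inv_mul_cancel_left] at h4
      rw [hRD, Subgroup.mem_bot] at h3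
      rw [h3, mul_one]
      exact hn
    · exact le_inf le_sup_left hloc.lt.le
  rcases hother L' M' h' (by rw [e1, hi, e2]) with h1 | h1
  · rw [← hmap, h1]
  · exfalso
    have h2 : L = ⊥ := by
      rw [← hmap, Subgroup.map_eq_bot_iff, QuotientGroup.ker_mk']
      exact h1
    exact h.ne_bot h2

/-- The infinite direction for one local pair and one prime. -/
theorem inf_two [Finite G] [Z.Normal] {p : ℕ} (hp : p.Prime) (hloc : Loc R N) (h1 : CZ G)
    (hZ : Z = Subgroup.centralizer (R : Set G)) (hRD : R ⊓ D = ⊥)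
    (hother : ∀ L M : Subgroup G, Loc L M → M.relIndex L = N.relIndex R → L = R ∨ L ≤ D)
    (hlift : ∀ σ : (G ⧸ Z) ≃* (G ⧸ Z), ∃ τ : R ≃* R, Lift σ τ) (h' : R)
    (hI : Inv p R N Z h') (hM : ¬ Mov R Z h') (hpi : p ∣ (R ⊔ Z).index) (hD2 : D2 p R Z) :
    {F : Formation | F.IsSub (form G)}.Infinite := by
  have hpf : Fact p.Prime := ⟨hp⟩
  have hRn := hloc.nR
  have hDn : D.Normal := inferInstance
  have hcen : ⁅N, R⁆ = ⊥ := h1 R N hloc
  have hcenZ : cen R N hloc.nN = Z := by rw [Tz.cen_eq hloc hcen, hZ]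
  obtain ⟨A, B, hA, hB, hRA, hAB, hBA, hpB, hA2⟩ : ∃ A B : Subgroup G, A.Normal ∧ B.Normal ∧
      R ⊔ Z ≤ A ∧ A < B ∧ ⁅B, B⁆ ≤ A ∧ p ∣ A.relIndex B ∧ (A = R ⊔ Z ∨ p = 2) := by
    rcases hD2 with hp2 | ⟨B, hB, h2, h3, h4⟩
    · obtain ⟨A, B, h2, h3, h4, h5, h6, h7⟩ := sol_sec h1 hloc hp (by rw [hcenZ]; exact hpi)
      rw [hcenZ] at h4
      exact ⟨A, B, h2, h3, h4, h5, h6, h7, Or.inr hp2⟩
    · refine ⟨R ⊔ Z, B, inferInstance, hB, le_rfl, lt_of_le_of_ne h2 fun e => ?_, h3, h4,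
        Or.inl rfl⟩
      rw [← e, Subgroup.relIndex_self] at h4
      exact hp.one_lt.ne' (Nat.dvd_one.1 h4)
  obtain ⟨hhN, hh1', hhp', hinv⟩ := hI
  obtain ⟨h, hh'c⟩ : ∃ h : G, (h' : G) = h := ⟨_, rfl⟩
  rw [hh'c] at hhN
  have hhR : h ∈ R := hh'c ▸ h'.2
  have hh1 : h ≠ 1 := fun e => hh1' (Subtype.ext (hh'c.trans e))
  have hhp : h ^ p = 1 := by
    rw [← hh'c, ← Subgroup.coe_pow, hhp', Subgroup.coe_one]
  -- `D ≤ Z`, `N ≤ Z`
  have hDZ : D ≤ Z := by
    rw [hZ]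
    intro d hd
    rw [Subgroup.mem_centralizer_iff]
    intro r hr
    have h1 : r * d * r⁻¹ * d⁻¹ ∈ R ⊓ D := by
      refine ⟨?_, D.mul_mem (hDn.conj_mem d hd r) (D.inv_mem hd)⟩
      have h2 : r * d * r⁻¹ * d⁻¹ = r * (d * r⁻¹ * d⁻¹) := by group
      rw [h2]
      exact R.mul_mem hr (hRn.conj_mem _ (R.inv_mem hr) d)
    rw [hRD, Subgroup.mem_bot] at h1
    have h3 : r * d = (r * d * r⁻¹ * d⁻¹) * (d * r) := by group
    rw [h3, h1, one_mul]
  have hNZ : N ≤ Z := by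
    rw [hZ]
    intro n hn
    rw [Subgroup.mem_centralizer_iff]
    intro r hr
    have h5 : ⁅n, r⁆ ∈ ⁅N, R⁆ := Subgroup.commutator_mem_commutator hn hr
    rw [hcen, Subgroup.mem_bot] at h5
    exact (commutatorElement_eq_one_iff_commute.1 h5).symm
  have hcen' : ∀ g : G, g ∈ Z ↔ ∀ r ∈ R, g * r = r * g := by
    intro g
    rw [hZ, Subgroup.mem_centralizer_iff]
    exact ⟨fun H r hr => (H r hr).symm, fun H r hr => (H r hr).symm⟩
  have hRA' : R ≤ A := le_sup_left.trans hRA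
  have hZA' : Z ≤ A := le_sup_right.trans hRA
  have hDA : D ≤ A := hDZ.trans hZA'
  have hsurj : Function.Surjective (QuotientGroup.mk' D) := QuotientGroup.mk'_surjective D
  have hZn' : (Z.map (QuotientGroup.mk' D)).Normal :=
    Subgroup.Normal.map inferInstance _ hsurj
  have hRk : ¬ R ≤ (QuotientGroup.mk' D).ker := by
    rw [QuotientGroup.ker_mk']
    intro e
    have h1 : R = ⊥ := by rw [← hRD]; exact (inf_eq_left.2 e).symm
    exact hh1 (Subgroup.mem_bot.1 (h1 ▸ hhR))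
  have hloc' := loc_map (QuotientGroup.mk' D) hsurj hloc hRk
  obtain ⟨ρ, hρ⟩ := quo_rho (R := R) (D := D) hRD
  have hρh : ((ρ h' : R.map (QuotientGroup.mk' D)) : G ⧸ D) = QuotientGroup.mk' D h := by
    rw [hρ, hh'c]
    rfl
  have hρe : ∀ r : R.map (QuotientGroup.mk' D), (r : G ⧸ D) = QuotientGroup.mk' D h →
      r = ρ h' := fun r hr => Subtype.ext (hr.trans hρh.symm)
  -- the image of `h'` under lifts
  have hzp : ∀ (σ : (G ⧸ Z) ≃* (G ⧸ Z)) (τ : R ≃* R),
      (∀ r : R, (((τ r : R) : G) : G ⧸ Z) = σ ((r : G) : G ⧸ Z)) →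
        ((τ h' : R) : G) ∈ Subgroup.zpowers h := by
    intro σ τ hτ
    obtain ⟨k, hk⟩ := Subgroup.mem_zpowers_iff.1 (hinv σ τ hτ)
    exact Subgroup.mem_zpowers_iff.2 ⟨k, by rw [← hk, Subgroup.coe_zpow, hh'c]⟩
  -- lifts of automorphisms of the quotient
  have hnt' : ∀ σ' : ((G ⧸ D) ⧸ Z.map (QuotientGroup.mk' D)) ≃*
      ((G ⧸ D) ⧸ Z.map (QuotientGroup.mk' D)),
      ∃ τ' : R.map (QuotientGroup.mk' D) ≃* R.map (QuotientGroup.mk' D),
        (∀ r, (((τ' r : R.map (QuotientGroup.mk' D)) : G ⧸ D) :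
            (G ⧸ D) ⧸ Z.map (QuotientGroup.mk' D)) =
          σ' ((r : G ⧸ D) : (G ⧸ D) ⧸ Z.map (QuotientGroup.mk' D))) ∧
        ∀ r : R.map (QuotientGroup.mk' D), (r : G ⧸ D) = QuotientGroup.mk' D h →
          ((τ' r : R.map (QuotientGroup.mk' D)) : G ⧸ D) ∈
            Subgroup.zpowers (QuotientGroup.mk' D h) := by
    intro σ'
    obtain ⟨σ, -, hσ⟩ := quo_lift hDZ ρ hρ σ'
    obtain ⟨τ, hτ⟩ := hlift σ
    refine ⟨(ρ.symm.trans τ).trans ρ, (hσ _).2 fun r => ?_, fun r hr => ?_⟩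
    · rw [← hτ r]
      simp
    · rw [hρe r hr]
      have h1 : ((ρ.symm.trans τ).trans ρ) (ρ h') = ρ (τ h') := by simp
      rw [h1, hρ]
      obtain ⟨k, hk⟩ := Subgroup.mem_zpowers_iff.1 (hzp σ τ hτ)
      exact Subgroup.mem_zpowers_iff.2 ⟨k, by rw [← hk]; exact (map_zpow (QuotientGroup.mk' D) h k).symm⟩
  have hex := Knf.exists_setup hp (R.map (QuotientGroup.mk' D))
    (N.map (QuotientGroup.mk' D)) (Z.map (QuotientGroup.mk' D)) (A.map (QuotientGroup.mk' D))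
    (B.map (QuotientGroup.mk' D)) hloc' (Subgroup.map_mono hNZ) (quo_cen hRn hRD hcen')
    (fun L M hL hi => quo_uniq2 hRD hloc hother L M hL hi) (hA.map _ hsurj) (hB.map _ hsurj)
    (Subgroup.map_mono hRA') (Subgroup.map_mono hZA')
    (by
      refine lt_of_le_of_ne (Subgroup.map_mono hAB.le) fun e => hAB.ne ?_
      have h1 := congrArg (Subgroup.comap (QuotientGroup.mk' D)) e
      rw [Subgroup.comap_map_eq, Subgroup.comap_map_eq, QuotientGroup.ker_mk',
        sup_eq_left.2 hDA, sup_eq_left.2 (hDA.trans hAB.le)] at h1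
      exact h1)
    (by
      rw [← Subgroup.map_commutator]
      exact Subgroup.map_mono hBA)
    (by rw [quo_rel hDA hAB.le]; exact hpB)
    (QuotientGroup.mk' D h) (Subgroup.mem_map_of_mem _ hhN)
    (by
      intro e
      have h1 : h ∈ D := by
        rw [← QuotientGroup.ker_mk' D]
        exact e
      have h2 : h ∈ R ⊓ D := ⟨hhR, h1⟩
      rw [hRD] at h2
      exact hh1 (Subgroup.mem_bot.1 h2))
    (by rw [← map_pow, hhp, map_one]) hnt'
  refine (fun hh => by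
    obtain ⟨A', B', S⟩ := hex hh
    exact Knf.main_inf S (QuotientGroup.mk' D) hsurj) ?_
  rcases hA2 with hA2 | hp2
  · left
    constructor
    · intro σ' x y hxy hx
      obtain ⟨τ', hτ', -⟩ := hnt' σ'
      rw [hA2, Subgroup.map_sup] at hx ⊢
      have hx' := Subgroup.mem_sup_of_normal_right.1 hx
      obtain ⟨r, hr, z, hz, hrz⟩ := hx'
      have h1 : ((x : G ⧸ D) : (G ⧸ D) ⧸ Z.map (QuotientGroup.mk' D)) = (r : G ⧸ D) := by
        rw [← hrz, QuotientGroup.mk_mul, (QuotientGroup.eq_one_iff z).2 hz, mul_one]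
      have h2 := hτ' ⟨r, hr⟩
      rw [← h1, hxy] at h2
      have h3 := QuotientGroup.eq.1 h2
      have h4 : y = ((τ' ⟨r, hr⟩ : R.map (QuotientGroup.mk' D)) : G ⧸ D) *
          (((τ' ⟨r, hr⟩ : R.map (QuotientGroup.mk' D)) : G ⧸ D)⁻¹ * y) := by group
      rw [h4]
      exact Subgroup.mul_mem_sup (τ' ⟨r, hr⟩).2 h3
    · intro σ' hσ' τ' hτ' r hr
      by_contra hne
      refine hM ?_
      obtain ⟨σ, hσ1, hσ2⟩ := quo_lift hDZ ρ hρ σ'
      refine ⟨σ, (ρ.trans τ').trans ρ.symm, (hσ2 τ').1 hτ', fun x y hxy => ?_, ?_⟩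
      · have h1 := hσ' _ _ ((hσ1 x y).1 hxy)
        have h2 : QuotientGroup.mk' D (x⁻¹ * y) ∈ A.map (QuotientGroup.mk' D) := by
          rw [map_mul, map_inv]
          exact h1
        have h3 : x⁻¹ * y ∈ (A.map (QuotientGroup.mk' D)).comap (QuotientGroup.mk' D) := h2
        rw [Subgroup.comap_map_eq, QuotientGroup.ker_mk', sup_eq_left.2 hDA, hA2] at h3
        exact h3
      · intro e
        apply hne
        have h1 : τ' (ρ h') = ρ h' := by
          have h2 := congrArg ρ e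
          simpa using h2
        rw [hρe r hr, h1, hρh]
  · right
    intro σ' τ' hτ' r hr
    obtain ⟨σ, hσ1, hσ2⟩ := quo_lift hDZ ρ hρ σ'
    have h1 := hzp σ _ ((hσ2 τ').1 hτ')
    have h2 : ((((ρ.trans τ').trans ρ.symm) h' : R) : G) = h := by
      refine zp_two h _ ?_ (by rw [← hp2]; exact hhp) h1
      intro e
      have h3 : ((ρ.trans τ').trans ρ.symm) h' = 1 := Subtype.ext e
      rw [map_eq_one_iff _ (MulEquiv.injective _)] at h3
      exact hh1' h3
    have h3 : ((ρ.trans τ').trans ρ.symm) h' = h' := Subtype.ext (h2.trans hh'c.symm)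
    have h4 : τ' (ρ h') = ρ h' := by
      have h5 := congrArg ρ h3
      simpa using h5
    rw [hρe r hr, h4, hρh]

end Cry

end MP799fdf
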