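import Pool.Agent.Lib.MP_799fdf_al.Cry.Sys
import Pool.Agent.Lib.MP_799fdf_al.Cry.QuoD

/-! # Critical primes -/

set_option autoImplicit false

open scoped commutatorElement

namespace MP799fdf

namespace Cry

open Inn
open Cop (TT TA)
open Tz (CZ Dg BC)

/-- The prime `p` is critical for the local pair: some section `H / Y` of `N` of order divisible by `p` is centralised by all
elements that are central modulo `L C(L)`, and `p` divides the index of `L C(L)` in the centraliser of `H / Y`. -/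
def Cri {K : Type} [Group K] (p : ℕ) {L N : Subgroup K} (h : Loc L N) : Prop :=
  p.Prime ∧ ∃ (H Y : Subgroup K) (_ : H.Normal) (hY : Y.Normal), Y < H ∧ H ≤ N ∧
    BC h (H := H) hY ∧ p ∣ Y.relIndex H ∧ p ∣ (L ⊔ cen L N h.nN).relIndex (cen H Y hY)

theorem dg_of_not_cri {K : Type} [Group K] {L N : Subgroup K} (h : Loc L N) (h1 : ⁅N, L⁆ = ⊥)
    (h2 : ¬ ∃ p, Cri p h) : Dg h :=
  ⟨h1, fun H Y hH hY hlt hle hBC p hp hd hd' =>
    h2 ⟨p, hp, H, Y, hH, hY, hlt, hle, hBC, hd, hd'⟩⟩

theorem cri_index {G : Type} [Group G] [Finite G] {p : ℕ} {L N : Subgroup G} {h : Loc L N}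
    (hc : Cri p h) : p ∣ (L ⊔ cen L N h.nN).index := by
  obtain ⟨-, H, Y, hH, hY, -, -, -, -, hd⟩ := hc
  have := h.nR
  have := cen_normal L N h.nR h.nN
  have hn : (L ⊔ cen L N h.nN).Normal := inferInstance
  exact hd.trans (Subgroup.relIndex_dvd_index_of_normal _ _)

end Cry

end MP799fdf
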