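import Pool.Agent.Lib.MP_799fdf_al.Cry.Tam

set_option autoImplicit false

open scoped commutatorElement

namespace MP799fdf

namespace Cry

open Inn
open Cop (TT TA)
open Tw (TB TC)
open Tz (CZ Dg BC)
open Crt (Cyc lep)

/-- PROOF. Let `Inv p .. h` and suppose that not `Mov .. h`. `H = Subgroup.zpowers (h : G)` is normal in `G` by `lift_conj`
and `Inv`, `H ≤ N`, `Y = ⊥`, `Y.relIndex H = Nat.card H = p` (`Subgroup.relIndex_bot_left`, `Nat.card_zpowers`,
`orderOf_eq_prime`). Let `C = cen H ⊥` (the centraliser of `h`). If `⁅b, g⁆ ∈ R ⊔ Z` for all `g` then the automorphism `σ` of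
`lift_conj` for `b` is trivial modulo `R Z` (`Tri`: `y = b x b⁻¹ z`, and `x⁻¹ * b * x * b⁻¹ = ⁅b, x⁻¹⁆⁻¹`), so `b h b⁻¹ = h`
since not `Mov`; so `BC` holds and `hD` gives that `p` does not divide `(R ⊔ Z).relIndex C`. `R ⊔ Z ≤ C` (`Tw.sup_le_cen`).
`(R ⊔ Z).index = (R ⊔ Z).relIndex C * C.index` (`Subgroup.relIndex_mul_index`), so `p` divides `C.index`. But `C` is the kernel
of `G → MulAut H` (`MulAut.conjNormal`), the automorphism group of the cyclic group `H` of order `p` has order
`p - 1` (`IsCyclic.card_mulAut`, `Nat.totient_prime`), and `C.index` divides it (`Subgroup.index_ker`,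
`Subgroup.card_subgroup_dvd_card`), a contradiction. -/
theorem tame_crit {G : Type} [Group G] [Finite G] (τ : TT G) (hD : Dg τ.2) :
    Crit τ.1.1 τ.1.2 (ZZ τ) := by
  intro p hp hpN hidx h hinv
  by_contra hmov
  have nR : τ.1.1.Normal := τ.2.nR
  obtain ⟨hhN, hh1, hhp, hlift⟩ := hinv
  have hh1' : (h : G) ≠ 1 := fun h0 => hh1 (Subtype.ext h0)
  have hhp' : (h : G) ^ p = 1 := by
    have := congrArg (fun r : τ.1.1 => (r : G)) hhp
    simpa using this
  -- `H` is normal
  have hconj : ∀ g : G, g * (h : G) * g⁻¹ ∈ Subgroup.zpowers (h : G) := by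
    intro g
    obtain ⟨σ, τ', h1, h2, h3⟩ := lift_conj τ.1.1 (ZZ τ) g
    obtain ⟨n, hn⟩ := Subgroup.mem_zpowers_iff.1 (hlift σ τ' h1)
    rw [Subgroup.mem_zpowers_iff]
    refine ⟨n, ?_⟩
    rw [← h3 h, ← hn]
    simp
  have hHn : (Subgroup.zpowers (h : G)).Normal := by
    refine ⟨fun x hx g => ?_⟩
    obtain ⟨n, rfl⟩ := Subgroup.mem_zpowers_iff.1 hx
    rw [← conj_zpow]
    exact Subgroup.zpow_mem _ (hconj g) n
  have hY : (⊥ : Subgroup G).Normal := inferInstance
  have hlt : (⊥ : Subgroup G) < Subgroup.zpowers (h : G) := by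
    rw [bot_lt_iff_ne_bot]
    intro h0
    exact hh1' (Subgroup.zpowers_eq_bot.1 h0)
  have hle : Subgroup.zpowers (h : G) ≤ τ.1.2 := by
    rw [Subgroup.zpowers_le]
    exact hhN
  have hfact : Fact p.Prime := ⟨hp⟩
  have hcard : Nat.card (Subgroup.zpowers (h : G)) = p := by
    rw [Nat.card_zpowers, orderOf_eq_prime hhp' hh1']
  have hBC : BC τ.2 (H := Subgroup.zpowers (h : G)) hY := by
    intro c hc
    obtain ⟨σ, τ', h1, h2, h3⟩ := lift_conj τ.1.1 (ZZ τ) c
    have htri : Tri τ.1.1 σ := by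
      intro x y hxy
      rw [h2] at hxy
      have h4 : ((c * x * c⁻¹ : G) : G ⧸ ZZ τ) = (y : G ⧸ ZZ τ) := by
        rw [← hxy]
        rfl
      have h5 : (c * x * c⁻¹)⁻¹ * y ∈ ZZ τ := QuotientGroup.eq.1 h4
      have h6 : x⁻¹ * y = ⁅c, x⁻¹⁆⁻¹ * ((c * x * c⁻¹)⁻¹ * y) := by
        rw [commutatorElement_def]
        group
      rw [h6]
      refine Subgroup.mul_mem _ (Subgroup.inv_mem _ (hc x⁻¹)) ?_
      exact Subgroup.mem_sup_right h5
    have h4 : τ' h = h := by
      by_contra hne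
      exact hmov ⟨σ, τ', h1, htri, hne⟩
    have h5 : c * (h : G) * c⁻¹ = h := by
      rw [← h3 h, h4]
    have h6 : Commute c (h : G) := by
      show c * (h : G) = (h : G) * c
      conv_rhs => rw [← h5]
      group
    rw [mem_cen]
    intro x hx
    obtain ⟨n, rfl⟩ := Subgroup.mem_zpowers_iff.1 hx
    rw [Subgroup.mem_bot]
    exact commutatorElement_eq_one_iff_commute.2 (h6.zpow_right n)
  have hnd := hD.2 (Subgroup.zpowers (h : G)) ⊥ hHn hY hlt hle hBC p hp (by
    rw [Subgroup.relIndex_bot_left, hcard])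
  have hsup := Tw.sup_le_cen τ.2 hD.1 (H := Subgroup.zpowers (h : G)) hY hle
  have hmul := Subgroup.relIndex_mul_index hsup
  have hdvd : p ∣ (cen (Subgroup.zpowers (h : G)) ⊥ hY).index := by
    have h1 : p ∣ (τ.1.1 ⊔ cen τ.1.1 τ.1.2 τ.2.nN).index := hidx
    rw [← hmul] at h1
    exact (hp.dvd_mul.1 h1).resolve_left hnd
  -- the index of the centraliser
  have hker : cen (Subgroup.zpowers (h : G)) ⊥ hY =
      (MulAut.conjNormal (H := Subgroup.zpowers (h : G)) : G →* _).ker := by
    ext c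
    rw [mem_cen, MonoidHom.mem_ker]
    constructor
    · intro hc
      ext x
      have h1 := commutatorElement_eq_one_iff_commute.1 (Subgroup.mem_bot.1 (hc x x.2))
      rw [MulAut.conjNormal_apply]
      have h2 : c * (x : G) = x * c := h1
      rw [h2]
      simp
    · intro hc x hx
      rw [Subgroup.mem_bot, commutatorElement_eq_one_iff_commute]
      have h1 := congrArg (fun f : MulAut (Subgroup.zpowers (h : G)) => ((f ⟨x, hx⟩ : _) : G)) hc
      simp only [MulAut.conjNormal_apply, MulAut.one_apply] at h1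
      show c * x = x * c
      conv_rhs => rw [← h1]
      group
  have hcyc : IsCyclic (Subgroup.zpowers (h : G)) := inferInstance
  have haut : Nat.card (MulAut (Subgroup.zpowers (h : G))) = p - 1 := by
    rw [IsCyclic.card_mulAut, hcard, Nat.totient_prime hp]
  have hfin : (cen (Subgroup.zpowers (h : G)) ⊥ hY).index ∣ p - 1 := by
    rw [hker, Subgroup.index_ker, ← haut]
    exact Subgroup.card_subgroup_dvd_card _
  have h1 := Nat.le_of_dvd (by have := hp.two_le; omega) (hdvd.trans hfin)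
  have := hp.two_le
  omega

end Cry

end MP799fdf
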