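import Pool.Agent.Lib.MP_799fdf_al.Cry.Defs3
import Pool.Agent.Lib.MP_799fdf_al.Cry.TamB

/-! # Critical primes, with all lifts -/

set_option autoImplicit false

open scoped commutatorElement

namespace MP799fdf

namespace Cry

open Inn
open Cop (TT TA)
open Tw (TB TC)
open Tz (CZ Dg BC)
open Crt (Cyc lep)

/-- The prime `p` is critical for the local pair: some section `H / Y` of `N` of order divisible by `p` is centralised by all
lifts of automorphisms of `G / Z` that are trivial modulo `R Z`, and `p` divides the index of `R Z` in the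
centraliser of `H / Y`. -/
def CriD {G : Type} [Group G] (p : ℕ) (τ : TT G) : Prop :=
  p.Prime ∧ ∃ (H Y : Subgroup G) (_ : H.Normal) (hY : Y.Normal), Y < H ∧ H ≤ τ.1.2 ∧
    (∀ (σ : (G ⧸ ZZ τ) ≃* (G ⧸ ZZ τ)) (t : τ.1.1 ≃* τ.1.1), Lift σ t → Tri τ.1.1 σ →
      ∀ z : τ.1.1, (z : G) ∈ H → ((t z : τ.1.1) : G) * (z : G)⁻¹ ∈ Y) ∧
    p ∣ Y.relIndex H ∧ p ∣ (τ.1.1 ⊔ ZZ τ).relIndex (cen H Y hY)

end Cry

end MP799fdf
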