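import Pool.Agent.Lib.MP_799fdf_al.Cry.Sys

set_option autoImplicit false

open scoped commutatorElement

namespace MP799fdf

namespace Cry

open Inn
open Cop (TT TA)
open Tw (TB TC)
open Tz (CZ Dg BC)
open Crt (Cyc lep)

variable {G : Type} [Group G]

/-- PROOF. As `Crt.cu_sys` (`Crt/SysC.lean`): suppose that `p` divides the order of `B.map _`; then `p ∣ Nat.card N`
(`Crt.rel_dvd`) and `p ∣ (R ⊔ cen).index` (`Crt.card_dvd`, `Tz.cen_eq`). `hD1`: if there is `h` with `Inv` and not `Mov`, then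
`hC` is contradicted. Otherwise `Cyc p N`. Let `h ∈ N` be of order `p` (Cauchy); `Inv` holds for `h` by `Crt.zp_mem'`
(`τ h ∈ N` by `Crt.lift_mem_N` in `Crt/QuoC.lean`, copy it), so `hC` gives `σ, τ'` with `Lift`, `Tri` and `τ' h ≠ h`. The pair is
a twist, and the end of the proof of `Crt.cu_sys` (`Crt.cyc_fix`) gives `τ' h = h`, a contradiction. -/
theorem crit_cu [Finite G] (h1 : CZ G) (τ : TT G)
    (hD1 : ∀ p : ℕ, p.Prime → p ∣ Nat.card τ.1.2 → p ∣ (τ.1.1 ⊔ ZZ τ).index →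
      D1 p τ.1.1 τ.1.2 (ZZ τ)) (hC : Crit τ.1.1 τ.1.2 (ZZ τ)) (H Y : Subgroup τ.1.1)
    (hS : Tx.Sec (xsys h1) τ H Y) (p : ℕ) (hp : p.Prime) (hd : p ∣ Y.relIndex H)
    (B : Subgroup (TA G τ)) :
    ¬ p ∣ Nat.card (B.map (QuotientGroup.mk' (TB G τ))) := by
  intro hpB
  have hker : ∀ z ∈ H, lep τ z = 1 := hS.1
  have hcenZ : ZZ τ = Subgroup.centralizer (τ.1.1 : Set G) :=
    Tz.cen_eq τ.2 (h1 τ.1.1 τ.1.2 τ.2)
  have hpI : p ∣ (τ.1.1 ⊔ ZZ τ).index := by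
    rw [hcenZ]
    exact hpB.trans (Crt.card_dvd h1 τ B)
  have hpN : p ∣ Nat.card τ.1.2 := hd.trans (Crt.rel_dvd τ H Y hker)
  have hNR : ⁅τ.1.2, τ.1.1⁆ = ⊥ := h1 τ.1.1 τ.1.2 τ.2
  have hcm : ∀ z ∈ τ.1.2, ∀ x ∈ τ.1.1, ⁅z, x⁆ = 1 := by
    intro z hz x hx
    have h5 := Subgroup.commutator_mem_commutator hz hx
    rwa [hNR, Subgroup.mem_bot] at h5
  rcases hD1 p hp hpN hpI with hC0 | ⟨h, hinv, hnm⟩
  swap
  · exact hnm (hC p hp hpN hpI h hinv)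
  -- lifts map `N` to `N`
  have hliftN : ∀ (σ : (G ⧸ ZZ τ) ≃* (G ⧸ ZZ τ)) (φ : τ.1.1 ≃* τ.1.1), Lift σ φ →
      ∀ z : τ.1.1, (z : G) ∈ τ.1.2 → ((φ z : τ.1.1) : G) ∈ τ.1.2 := by
    intro σ φ hφ z hz'
    have hzc : ((z : G) : G ⧸ ZZ τ) = 1 := by
      refine (QuotientGroup.eq_one_iff _).2 fun x hx => ?_
      rw [hcm z hz' x hx]
      exact Subgroup.one_mem _
    have h5 : (((φ z : τ.1.1) : G) : G ⧸ ZZ τ) = 1 := by
      rw [hφ z, hzc, map_one]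
    exact loc_inf_cen τ.2 ⟨(φ z).2, (QuotientGroup.eq_one_iff _).1 h5⟩
  -- the element of order `p`
  have hpf : Fact p.Prime := ⟨hp⟩
  obtain ⟨h₀, hh₀⟩ := exists_prime_orderOf_dvd_card' p hpN
  have hhN : (h₀ : G) ∈ τ.1.2 := h₀.2
  have hhR : (h₀ : G) ∈ τ.1.1 := τ.2.lt.le hhN
  have hh1 : (h₀ : G) ≠ 1 := by
    intro e
    have e2 : h₀ = 1 := Subtype.ext e
    rw [e2, orderOf_one] at hh₀
    exact hp.one_lt.ne hh₀
  have hhp : (h₀ : G) ^ p = 1 := by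
    rw [← Subgroup.coe_pow, ← hh₀, pow_orderOf_eq_one, Subgroup.coe_one]
  obtain ⟨h, hh⟩ : ∃ h : τ.1.1, (h : G) = (h₀ : G) := ⟨⟨h₀, hhR⟩, rfl⟩
  have hhN' : (h : G) ∈ τ.1.2 := by rw [hh]; exact hhN
  have hne1 : h ≠ 1 := by
    intro e
    apply hh1
    rw [← hh, e, Subgroup.coe_one]
  have hhp' : h ^ p = 1 := by
    apply Subtype.ext
    rw [Subgroup.coe_pow, hh, hhp, Subgroup.coe_one]
  have hInv : Inv p τ.1.1 τ.1.2 (ZZ τ) h := by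
    refine ⟨hhN', hne1, hhp', fun σ φ hφ => ?_⟩
    have h2 : ((φ h : τ.1.1) : G) ∈ Subgroup.zpowers (h : G) := by
      refine Crt.zp_mem' hp τ.1.2 hC0 (h : G) _ hhN' (hliftN σ φ hφ h hhN') ?_ ?_ ?_
      · rw [hh]; exact hh1
      · rw [hh]; exact hhp
      · rw [← Subgroup.coe_pow, ← map_pow, hhp', map_one, Subgroup.coe_one]
    obtain ⟨n, hn⟩ := Subgroup.mem_zpowers_iff.1 h2
    exact Subgroup.mem_zpowers_iff.2 ⟨n, Subtype.ext (by rw [Subgroup.coe_zpow]; exact hn)⟩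
  obtain ⟨σ, φ, hφ, hσ, hne⟩ := hC p hp hpN hpI h hInv
  have hq1 : ∀ x, (xsys h1).ep τ (φ x) = σ ((xsys h1).ep τ x) := hφ
  have hq2 : ∀ x : TA G τ,
      QuotientGroup.mk' (TB G τ) (σ x) = QuotientGroup.mk' (TB G τ) x := by
    intro x
    obtain ⟨x, rfl⟩ := QuotientGroup.mk_surjective x
    obtain ⟨y, hy⟩ := QuotientGroup.mk_surjective (σ (x : TA G τ))
    have h2 := hσ x y hy.symm
    rw [← hy]
    refine (QuotientGroup.eq.2 ?_).symm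
    have h3 : QuotientGroup.mk' (cen τ.1.1 τ.1.2 τ.2.nN) (x⁻¹ * y) ∈
        (τ.1.1 ⊔ cen τ.1.1 τ.1.2 τ.2.nN).map (QuotientGroup.mk' (cen τ.1.1 τ.1.2 τ.2.nN)) :=
      Subgroup.mem_map_of_mem _ h2
    rw [Subgroup.map_sup, QuotientGroup.map_mk'_self, sup_bot_eq] at h3
    exact h3
  have hf : ∀ z ∈ H, φ z * z⁻¹ ∈ Y := hS.2.2.2 ⟨(σ, φ), hq1, hq2⟩
  have hN : ∀ z ∈ τ.1.2.subgroupOf τ.1.1, ∀ x, Commute z x := by
    intro z hz x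
    have h5 := commutatorElement_eq_one_iff_commute.1
      (hcm z (Subgroup.mem_subgroupOf.1 hz) x x.2)
    exact Subtype.ext h5.eq
  have hc : Cyc p (τ.1.2.subgroupOf τ.1.1) := by
    obtain ⟨c, hcN, hc⟩ := hC0
    refine ⟨⟨c, τ.2.lt.le hcN⟩, Subgroup.mem_subgroupOf.2 hcN, ?_⟩
    rintro x hx ⟨k, hk⟩
    obtain ⟨n, hn⟩ := Subgroup.mem_zpowers_iff.1
      (hc x (Subgroup.mem_subgroupOf.1 hx) ⟨k, congrArg Subtype.val hk⟩)
    exact Subgroup.mem_zpowers_iff.2 ⟨n, Subtype.ext hn⟩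
  have hφN : ∀ z ∈ τ.1.2.subgroupOf τ.1.1, φ.toMonoidHom z ∈ τ.1.2.subgroupOf τ.1.1 := by
    intro z hz
    exact Subgroup.mem_subgroupOf.2 (hliftN σ φ hφ z (Subgroup.mem_subgroupOf.1 hz))
  have hHN : H ≤ τ.1.2.subgroupOf τ.1.1 := by
    intro z hz
    have h5 : ((z : G) : TA G τ) = 1 := hker z hz
    exact Subgroup.mem_subgroupOf.2
      (loc_inf_cen τ.2 ⟨z.2, (QuotientGroup.eq_one_iff _).1 h5⟩)
  exact hne (Crt.cyc_fix hp (τ.1.2.subgroupOf τ.1.1) Y H hN hc φ.toMonoidHom hφN hHN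
    hS.2.1.le hd hf h (Subgroup.mem_subgroupOf.2 hhN') hhp')

end Cry

end MP799fdf
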