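import Pool.Agent.Lib.MP_799fdf_al.Cry.SysT
import Pool.Agent.Lib.MP_799fdf_al.Cry.SysC
import Pool.Agent.Lib.MP_799fdf_al.Cry.TamB
import Pool.Agent.Lib.MP_799fdf_al.Cry.QuoD

/-! # The criterion, second version -/

set_option autoImplicit false

open scoped commutatorElement

namespace MP799fdf

namespace Cry

open Inn
open Cop (TT TA)
open Tz (CZ Dg)

/-- THE THEOREM. -/
theorem main (G : Type) [Group G] [Finite G] (h1 : CZ G)
    (hyp : ∀ τ : TT G, Dg τ.2 ∨ (Dir τ.1.1 τ.1.2 ∧ LP τ.1.1 (ZZ τ) ∧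
      ∀ p : ℕ, p.Prime → p ∣ Nat.card τ.1.2 → p ∣ (τ.1.1 ⊔ ZZ τ).index →
        D1 p τ.1.1 τ.1.2 (ZZ τ) ∧ D2 p τ.1.1 (ZZ τ))) :
    {F : Formation | F.IsSub (form G)}.Finite ↔ ∀ τ : TT G, Crit τ.1.1 τ.1.2 (ZZ τ) := by
  constructor
  · intro hfin τ
    rcases hyp τ with hD | ⟨⟨D, hD, hRD, hother⟩, hL, hd⟩
    · exact tame_crit τ hD
    · intro p hp hpN hpi h hI
      by_contra hM
      exact inf_two hp τ.2 h1 (Tz.cen_eq τ.2 (h1 _ _ τ.2)) hRD hother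
        (fun σ => hL τ.1.1 τ.1.2 (ZZ τ) τ.2 (Tz.cen_eq τ.2 (h1 _ _ τ.2)) σ) h hI hM hpi
        (hd p hp hpN hpi).2 hfin
  · intro h
    refine Tx.mainX (xsys h1) h1 (fun τ hτ => ?_) fun τ hτ H Y hS p hp hd B hB => ?_
    · rcases hyp τ with hD | ⟨-, hL, -⟩
      · exact hD
      · exact absurd (lt_of_lp h1 τ hL) hτ
    · rcases hyp τ with hD | ⟨-, hL, hd'⟩
      · exact tame_cu h1 τ hD H Y hS p hp hd B hB
      · exact crit_cu h1 τ (fun p hp hpN hpi => (hd' p hp hpN hpi).1) (h τ) H Y hS p hp hd B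

end Cry

end MP799fdf
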