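import Pool.Agent.Lib.MP_799fdf_al.Cry.Defs4

set_option autoImplicit false

open scoped commutatorElement

namespace MP799fdf

namespace Cry

open Inn
open Cop (TT TA)
open Tw (TB TC)
open Tz (CZ Dg BC)
open Crt (Cyc lep)

/-- PROOF. Let `H / Y` be the section of `CriD`. `p` divides `Nat.card N` (`Y.relIndex H ∣ Nat.card H ∣ Nat.card N`). Let
`h ∈ N` be of order `p` (Cauchy), as an element of `R`. `Inv` holds as in the proof of `crit_cu` in `Cry/SysC.lean` (finished).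
Not `Mov`: if `σ, φ` with `Lift`, `Tri` and `φ h ≠ h`, then `φ z * z⁻¹ ∈ Y` for `z ∈ H`, and `Crt.cyc_fix` in the group `↥R` with
`τ.1.2.subgroupOf τ.1.1`, `Y.subgroupOf τ.1.1`, `H.subgroupOf τ.1.1` gives `φ h = h`, see the end of the proof of `crit_cu`. -/
theorem exists_inv {G : Type} [Group G] [Finite G] (h1 : CZ G) (τ : TT G) (p : ℕ)
    (hc : CriD p τ) (hcy : Cyc p τ.1.2) :
    ∃ h : τ.1.1, Inv p τ.1.1 τ.1.2 (ZZ τ) h ∧ ¬ Mov τ.1.1 (ZZ τ) h := by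
  obtain ⟨hp, H, Y, _, hYn, hlt, hle, hL, hd, -⟩ := hc
  have hpN : p ∣ Nat.card τ.1.2 :=
    (hd.trans (Subgroup.relIndex_dvd_card Y H)).trans (Subgroup.card_dvd_of_le hle)
  have hNR : ⁅τ.1.2, τ.1.1⁆ = ⊥ := h1 τ.1.1 τ.1.2 τ.2
  have hcm : ∀ z ∈ τ.1.2, ∀ x ∈ τ.1.1, ⁅z, x⁆ = 1 := by
    intro z hz x hx
    have h5 := Subgroup.commutator_mem_commutator hz hx
    rwa [hNR, Subgroup.mem_bot] at h5
  -- lifts map `N` to `N`
  have hliftN : ∀ (σ : (G ⧸ ZZ τ) ≃* (G ⧸ ZZ τ)) (φ : τ.1.1 ≃* τ.1.1), Lift σ φ →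
      ∀ z : τ.1.1, (z : G) ∈ τ.1.2 → ((φ z : τ.1.1) : G) ∈ τ.1.2 := by
    intro σ φ hφ z hz'
    have hzc : ((z : G) : G ⧸ ZZ τ) = 1 := by
      refine (QuotientGroup.eq_one_iff _).2 fun x hx => ?_
      rw [hcm z hz' x hx]
      exact Subgroup.one_mem _
    have h5 : (((φ z : τ.1.1) : G) : G ⧸ ZZ τ) = 1 := by
      rw [hφ z, hzc, map_one]
    exact loc_inf_cen τ.2 ⟨(φ z).2, (QuotientGroup.eq_one_iff _).1 h5⟩
  -- the element of order `p`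
  have hpf : Fact p.Prime := ⟨hp⟩
  obtain ⟨h₀, hh₀⟩ := exists_prime_orderOf_dvd_card' p hpN
  have hhN : (h₀ : G) ∈ τ.1.2 := h₀.2
  have hhR : (h₀ : G) ∈ τ.1.1 := τ.2.lt.le hhN
  have hh1 : (h₀ : G) ≠ 1 := by
    intro e
    have e2 : h₀ = 1 := Subtype.ext e
    rw [e2, orderOf_one] at hh₀
    exact hp.one_lt.ne hh₀
  have hhp : (h₀ : G) ^ p = 1 := by
    rw [← Subgroup.coe_pow, ← hh₀, pow_orderOf_eq_one, Subgroup.coe_one]
  obtain ⟨h, hh⟩ : ∃ h : τ.1.1, (h : G) = (h₀ : G) := ⟨⟨h₀, hhR⟩, rfl⟩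
  have hhN' : (h : G) ∈ τ.1.2 := by rw [hh]; exact hhN
  have hne1 : h ≠ 1 := by
    intro e
    apply hh1
    rw [← hh, e, Subgroup.coe_one]
  have hhp' : h ^ p = 1 := by
    apply Subtype.ext
    rw [Subgroup.coe_pow, hh, hhp, Subgroup.coe_one]
  refine ⟨h, ⟨hhN', hne1, hhp', fun σ φ hφ => ?_⟩, ?_⟩
  · have h2 : ((φ h : τ.1.1) : G) ∈ Subgroup.zpowers (h : G) := by
      refine Crt.zp_mem' hp τ.1.2 hcy (h : G) _ hhN' (hliftN σ φ hφ h hhN') ?_ ?_ ?_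
      · rw [hh]; exact hh1
      · rw [hh]; exact hhp
      · rw [← Subgroup.coe_pow, ← map_pow, hhp', map_one, Subgroup.coe_one]
    obtain ⟨n, hn⟩ := Subgroup.mem_zpowers_iff.1 h2
    exact Subgroup.mem_zpowers_iff.2 ⟨n, Subtype.ext (by rw [Subgroup.coe_zpow]; exact hn)⟩
  · rintro ⟨σ, φ, hφ, hσ, hne⟩
    have hf : ∀ z ∈ H.subgroupOf τ.1.1, φ.toMonoidHom z * z⁻¹ ∈ Y.subgroupOf τ.1.1 := by
      intro z hz
      exact Subgroup.mem_subgroupOf.2 (hL σ φ hφ hσ z (Subgroup.mem_subgroupOf.1 hz))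
    have hN : ∀ z ∈ τ.1.2.subgroupOf τ.1.1, ∀ x, Commute z x := by
      intro z hz x
      have h5 := commutatorElement_eq_one_iff_commute.1
        (hcm z (Subgroup.mem_subgroupOf.1 hz) x x.2)
      exact Subtype.ext h5.eq
    have hcy' : Cyc p (τ.1.2.subgroupOf τ.1.1) := by
      obtain ⟨c, hcN, hc⟩ := hcy
      refine ⟨⟨c, τ.2.lt.le hcN⟩, Subgroup.mem_subgroupOf.2 hcN, ?_⟩
      rintro x hx ⟨k, hk⟩
      obtain ⟨n, hn⟩ := Subgroup.mem_zpowers_iff.1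
        (hc x (Subgroup.mem_subgroupOf.1 hx) ⟨k, congrArg Subtype.val hk⟩)
      exact Subgroup.mem_zpowers_iff.2 ⟨n, Subtype.ext hn⟩
    have hφN : ∀ z ∈ τ.1.2.subgroupOf τ.1.1, φ.toMonoidHom z ∈ τ.1.2.subgroupOf τ.1.1 := by
      intro z hz
      exact Subgroup.mem_subgroupOf.2 (hliftN σ φ hφ z (Subgroup.mem_subgroupOf.1 hz))
    have hHN : H.subgroupOf τ.1.1 ≤ τ.1.2.subgroupOf τ.1.1 := fun z hz =>
      Subgroup.mem_subgroupOf.2 (hle (Subgroup.mem_subgroupOf.1 hz))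
    have hYH : Y.subgroupOf τ.1.1 ≤ H.subgroupOf τ.1.1 := fun z hz =>
      Subgroup.mem_subgroupOf.2 (hlt.le (Subgroup.mem_subgroupOf.1 hz))
    have hd2 : p ∣ (Y.subgroupOf τ.1.1).relIndex (H.subgroupOf τ.1.1) := by
      rw [Subgroup.relIndex_subgroupOf (hle.trans τ.2.lt.le)]
      exact hd
    exact hne (Crt.cyc_fix hp (τ.1.2.subgroupOf τ.1.1) (Y.subgroupOf τ.1.1)
      (H.subgroupOf τ.1.1) hN hcy' φ.toMonoidHom hφN hHN hYH hd2 hf h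
      (Subgroup.mem_subgroupOf.2 hhN') hhp')

end Cry

end MP799fdf
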