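import Pool.Agent.Lib.MP_799fdf_al.Cry.Defs

set_option autoImplicit false

open scoped commutatorElement

namespace MP799fdf

namespace Cry

open Inn
open Cop (TT TA)
open Tw (TB TC)
open Tz (CZ Dg BC)
open Crt (Cyc lep)

variable {G : Type} [Group G]

/-- the types for which all isomorphisms lift -/
def LT (G : Type) [Group G] : Set (TT G) :=
  {τ | ∀ (τ' : TT G) (β : TA G τ ≃* TA G τ'),
    ∃ b : τ.1.1 ≃* τ'.1.1, ∀ x, lep τ' (b x) = β (lep τ x)}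

theorem lt_clos (τ : TT G) (hτ : τ ∈ LT G) (τ' : TT G) (β : TA G τ ≃* TA G τ') :
    τ' ∈ LT G := by
  intro τ'' γ
  obtain ⟨b, hb⟩ := hτ τ' β
  obtain ⟨c, hc⟩ := hτ τ'' (β.trans γ)
  refine ⟨b.symm.trans c, fun x => ?_⟩
  rw [MulEquiv.trans_apply, hc, MulEquiv.trans_apply, ← hb, MulEquiv.apply_symm_apply]

/-- the local subgroups as covers -/
def xsys (h1 : CZ G) : Tx.XSys G (fun τ => τ.1.1) where
  T := LT G
  ep := lep
  perf := Crt.lep_perf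
  cent := Crt.lep_cent h1
  lift := fun τ hτ τ' β _ => hτ τ' β
  clos := fun τ hτ τ' β _ => lt_clos τ hτ τ' β
  bas := Crt.lep_bas

/-- PROOF. `hl` for `R' = τ'.1.1`, `N' = τ'.1.2`, `Z' = ZZ τ'` (`Tz.cen_eq`). -/
theorem lt_of_lp (h1 : CZ G) (τ : TT G) (hl : LP τ.1.1 (ZZ τ)) : τ ∈ LT G := by
  intro τ' β
  obtain ⟨b, hb⟩ := hl τ'.1.1 τ'.1.2 (ZZ τ') τ'.2 (Tz.cen_eq τ'.2 (h1 _ _ τ'.2)) β
  exact ⟨b, fun x => hb x⟩

end Cry

end MP799fdf
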