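import Pool.Agent.Lib.MP_799fdf_al.Cry.Defs4
import Pool.Agent.Lib.MP_799fdf_al.Cry.Sys

set_option autoImplicit false

open scoped commutatorElement

namespace MP799fdf

namespace Cry

open Inn
open Cop (TT TA)
open Tw (TB TC)
open Tz (CZ Dg BC)
open Crt (Cyc lep)

/-- PROOF. The same as `tame_cu` in `Cry/SysT.lean` (being proved by helper95; look there for the docstring or the finished proof), but
simpler: the sections are `H₁ = H.map R.subtype`, `Y₁ = Y.map R.subtype`, and the clause about lifts in `CriD` is the last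
clause of `Tx.Sec` (a pair `σ, t` with `Lift` and `Tri` is an element of `Tx.Tht (xsys h1) τ`; the second condition of `Tht` from `Tri` as in
`crit_cu` in `Cry/SysC.lean`). `p` divides `(R ⊔ cen).relIndex (cen H₁ Y₁)` because the order of `B.map (mk' TB)` divides it: see `tame_cu`. -/
theorem criD_of_sec {G : Type} [Group G] [Finite G] (h1 : CZ G) (τ : TT G) (H Y : Subgroup τ.1.1)
    (hS : Tx.Sec (xsys h1) τ H Y) (p : ℕ) (hp : p.Prime) (hd : p ∣ Y.relIndex H)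
    (B : Subgroup (TA G τ)) (hB : ∀ α ∈ B, ∀ b : τ.1.1 ≃* τ.1.1,
      (∀ x, lep τ (b x) = α * lep τ x * α⁻¹) → ∀ z ∈ H, b z * z⁻¹ ∈ Y)
    (hpB : p ∣ Nat.card (B.map (QuotientGroup.mk' (TB G τ)))) : CriD p τ := by
  have hRn : τ.1.1.Normal := τ.2.nR
  have hinj : Function.Injective τ.1.1.subtype := Subgroup.subtype_injective _
  have hker : ∀ z ∈ H, lep τ z = 1 := hS.1
  -- conjugation
  have hconj : ∀ (g : G) (x : τ.1.1),
      lep τ (MulAut.conjNormal g x) = (g : TA G τ) * lep τ x * (g : TA G τ)⁻¹ := by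
    intro g x
    show ((MulAut.conjNormal g x : τ.1.1) : G) = (g : TA G τ) * ((x : G) : TA G τ) *
      (g : TA G τ)⁻¹
    rw [MulAut.conjNormal_apply]
    rfl
  have hHn : (H.map τ.1.1.subtype).Normal := by
    refine ⟨?_⟩
    rintro _ ⟨z, hz, rfl⟩ g
    refine ⟨MulAut.conjNormal g z, (hS.2.2.1 (g : TA G τ) (MulAut.conjNormal g) (hconj g)).1 z hz,
      ?_⟩
    exact MulAut.conjNormal_apply g z
  have hYn : (Y.map τ.1.1.subtype).Normal := by
    refine ⟨?_⟩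
    rintro _ ⟨z, hz, rfl⟩ g
    refine ⟨MulAut.conjNormal g z, (hS.2.2.1 (g : TA G τ) (MulAut.conjNormal g) (hconj g)).2 z hz,
      ?_⟩
    exact MulAut.conjNormal_apply g z
  have hmem : ∀ (K : Subgroup τ.1.1) (z : τ.1.1), (z : G) ∈ K.map τ.1.1.subtype → z ∈ K := by
    rintro K z ⟨z', hz', h⟩
    rwa [← hinj h]
  refine ⟨hp, H.map τ.1.1.subtype, Y.map τ.1.1.subtype, hHn, hYn, ?_, ?_, ?_, ?_, ?_⟩
  · refine lt_of_le_of_ne (Subgroup.map_mono hS.2.1.le) ?_
    intro h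
    exact hS.2.1.ne (Subgroup.map_injective hinj h)
  · rintro _ ⟨z, hz, rfl⟩
    have h5 : ((z : G) : TA G τ) = 1 := hker z hz
    exact loc_inf_cen τ.2 ⟨z.2, (QuotientGroup.eq_one_iff _).1 h5⟩
  · intro σ t hφ hσ z hz
    have hq1 : ∀ x, (xsys h1).ep τ (t x) = σ ((xsys h1).ep τ x) := hφ
    have hq2 : ∀ x : TA G τ,
        QuotientGroup.mk' (TB G τ) (σ x) = QuotientGroup.mk' (TB G τ) x := by
      intro x
      obtain ⟨x, rfl⟩ := QuotientGroup.mk_surjective x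
      obtain ⟨y, hy⟩ := QuotientGroup.mk_surjective (σ (x : TA G τ))
      have h2 := hσ x y hy.symm
      rw [← hy]
      refine (QuotientGroup.eq.2 ?_).symm
      have h3 : QuotientGroup.mk' (cen τ.1.1 τ.1.2 τ.2.nN) (x⁻¹ * y) ∈
          (τ.1.1 ⊔ cen τ.1.1 τ.1.2 τ.2.nN).map (QuotientGroup.mk' (cen τ.1.1 τ.1.2 τ.2.nN)) :=
        Subgroup.mem_map_of_mem _ h2
      rw [Subgroup.map_sup, QuotientGroup.map_mk'_self, sup_bot_eq] at h3
      exact h3
    have hf : ∀ z ∈ H, t z * z⁻¹ ∈ Y := hS.2.2.2 ⟨(σ, t), hq1, hq2⟩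
    exact ⟨t z * z⁻¹, hf z (hmem H z hz), rfl⟩
  · rw [Subgroup.relIndex_map_map_of_injective _ _ hinj]
    exact hd
  · obtain ⟨f, hf⟩ : ∃ f : G →* TA G τ ⧸ TB G τ, f = (QuotientGroup.mk' (TB G τ)).comp
        (QuotientGroup.mk' (cen τ.1.1 τ.1.2 τ.2.nN)) := ⟨_, rfl⟩
    have hfk : f.ker = τ.1.1 ⊔ cen τ.1.1 τ.1.2 τ.2.nN := by
      have h3 := Subgroup.comap_map_eq (QuotientGroup.mk' (cen τ.1.1 τ.1.2 τ.2.nN)) τ.1.1
      rw [QuotientGroup.ker_mk'] at h3
      rw [hf, ← MonoidHom.comap_ker, QuotientGroup.ker_mk']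
      exact h3
    obtain ⟨B₁, hB₁⟩ : ∃ B₁ : Subgroup G,
        B₁ = B.comap (QuotientGroup.mk' (cen τ.1.1 τ.1.2 τ.2.nN)) := ⟨_, rfl⟩
    have hBmap : B.map (QuotientGroup.mk' (TB G τ)) = B₁.map f := by
      rw [hf, ← Subgroup.map_map, hB₁, Subgroup.map_comap_eq_self_of_surjective
        (QuotientGroup.mk'_surjective _)]
    have hBC : B₁ ≤ cen (H.map τ.1.1.subtype) (Y.map τ.1.1.subtype) hYn := by
      intro c hc
      rw [hB₁, Subgroup.mem_comap] at hc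
      rw [mem_cen]
      rintro _ ⟨z, hz, rfl⟩
      refine ⟨MulAut.conjNormal c z * z⁻¹, hB _ hc (MulAut.conjNormal c) (hconj c) z hz, ?_⟩
      rw [commutatorElement_def]
      show ((MulAut.conjNormal c z : τ.1.1) : G) * ((z : G))⁻¹ = c * (z : G) * c⁻¹ * (z : G)⁻¹
      rw [MulAut.conjNormal_apply]
    have h4 : Nat.card (B₁.map f) ∣ Nat.card
        ((cen (H.map τ.1.1.subtype) (Y.map τ.1.1.subtype) hYn).map f) :=
      Subgroup.card_dvd_of_le (Subgroup.map_mono hBC)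
    rw [← Subgroup.relIndex_ker, hfk] at h4
    rw [hBmap, ← Subgroup.relIndex_ker, hfk] at hpB
    refine hpB.trans (h4.trans ?_)
    rw [← Subgroup.relIndex_ker, hfk]

end Cry

end MP799fdf
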