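import Pool.Agent.Lib.MP_799fdf_al.Cry.WeaA
import Pool.Agent.Lib.MP_799fdf_al.Cry.WeaB
import Pool.Agent.Lib.MP_799fdf_al.Cry.WeaC

/-! # The criterion, fourth version -/

set_option autoImplicit false

open scoped commutatorElement

namespace MP799fdf

namespace Cry

open Inn
open Cop (TT TA)
open Tw (TB TC)
open Tz (CZ Dg BC)
open Crt (Cyc lep)

/-- THE THEOREM. -/
theorem main4 (G : Type) [Group G] [Finite G] (h1 : CZ G)
    (hL : ∀ τ : TT G, (∃ p, Cri p τ.2) → LP τ.1.1 (ZZ τ))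
    (hDir : ∀ τ : TT G, (∃ p, CriD p τ) → Dir τ.1.1 τ.1.2)
    (h3 : ∀ (τ : TT G) p, CriD p τ → D1 p τ.1.1 τ.1.2 (ZZ τ))
    (h4 : ∀ (τ : TT G) p, CriD p τ → D2 p τ.1.1 (ZZ τ)) :
    {F : Formation | F.IsSub (form G)}.Finite ↔ ∀ (τ : TT G) p, ¬ CriD p τ := by
  constructor
  · intro hfin τ p hc
    have hc' := cri_of_criD τ p hc
    have hLP := hL τ ⟨p, hc'⟩
    obtain ⟨D, hD, hRD, hother⟩ := hDir τ ⟨p, hc⟩
    obtain ⟨h, hI, hM⟩ : ∃ h : τ.1.1, Inv p τ.1.1 τ.1.2 (ZZ τ) h ∧ ¬ Mov τ.1.1 (ZZ τ) h := by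
      rcases h3 τ p hc with h | h
      · exact exists_inv h1 τ p hc h
      · exact h
    exact inf_two hc.1 τ.2 h1 (Tz.cen_eq τ.2 (h1 _ _ τ.2)) hRD hother
      (fun σ => hLP τ.1.1 τ.1.2 (ZZ τ) τ.2 (Tz.cen_eq τ.2 (h1 _ _ τ.2)) σ) h hI hM (cri_index hc')
      (h4 τ p hc) hfin
  · intro h
    refine Tx.mainX (xsys h1) h1 (fun τ hτ => ?_) fun τ hτ H Y hS p hp hd B hB hpB => ?_
    · exact dg_of_not_cri τ.2 (h1 _ _ τ.2) fun hc => hτ (lt_of_lp h1 τ (hL τ hc))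
    · exact h τ p (criD_of_sec h1 τ H Y hS p hp hd B hB hpB)

end Cry

end MP799fdf
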