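import Pool.Agent.Lib.MP_799fdf_al.Cry.Defs

set_option autoImplicit false

open scoped commutatorElement

namespace MP799fdf

namespace Cry

open Inn
open Cop (TT TA)
open Tz (CZ Dg)

/-- PROOF. Induction on `n`, for all `S`, in the form: for every `j`, with `A j = dser ⊤ j ⊔ S` (normal), `A 0 = ⊤`, `A n = S`,
`A (j+1) ≤ A j`, `⁅A j, A j⁆ ≤ A (j+1)` (`dser ⊤ (j+1) = ⁅dser ⊤ j, dser ⊤ j⁆`, `Subgroup.commutator_sup..` or elementwise
modulo `A (j+1)`: the images of `dser ⊤ j` in `G ⧸ A (j+1)` commute). If `p` divided no `(A (j+1)).relIndex (A j)` then `p` would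
not divide `(A j).index` for any `j` (`Subgroup.relIndex_mul_index`), in particular not `S.index`. Take `A = A (j+1)`,
`B = A j` with `p ∣ A.relIndex B`; `A ≠ B` since the index is not `1`. -/
theorem exists_step {G : Type} [Group G] [Finite G] (S : Subgroup G) [S.Normal] (n : ℕ)
    (hn : dser (⊤ : Subgroup G) n ≤ S) {p : ℕ} (hp : p.Prime) (hd : p ∣ S.index) :
    ∃ A B : Subgroup G, A.Normal ∧ B.Normal ∧ S ≤ A ∧ A < B ∧ ⁅B, B⁆ ≤ A ∧ p ∣ A.relIndex B := by
  have hnor : ∀ j, (dser (⊤ : Subgroup G) j).Normal := by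
    intro j
    induction j with
    | zero => exact (inferInstance : (⊤ : Subgroup G).Normal)
    | succ j ih =>
      have := ih
      exact (inferInstance : (⁅dser (⊤ : Subgroup G) j, dser (⊤ : Subgroup G) j⁆).Normal)
  have hanti : ∀ j, dser (⊤ : Subgroup G) (j + 1) ≤ dser (⊤ : Subgroup G) j := fun j =>
    (dser (⊤ : Subgroup G) j).commutator_le_self
  have hcomm : ∀ j, ⁅dser (⊤ : Subgroup G) j ⊔ S, dser (⊤ : Subgroup G) j ⊔ S⁆ ≤
      dser (⊤ : Subgroup G) (j + 1) ⊔ S := by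
    intro j
    have e : dser (⊤ : Subgroup G) (j + 1) =
      ⁅dser (⊤ : Subgroup G) j, dser (⊤ : Subgroup G) j⁆ := rfl
    have h1 : (dser (⊤ : Subgroup G) j ⊔ S).map (QuotientGroup.mk' S) =
        (dser (⊤ : Subgroup G) j).map (QuotientGroup.mk' S) := by
      rw [Subgroup.map_sup, QuotientGroup.map_mk'_self, sup_bot_eq]
    have h2 : (⁅dser (⊤ : Subgroup G) j ⊔ S, dser (⊤ : Subgroup G) j ⊔ S⁆).map
        (QuotientGroup.mk' S) = (dser (⊤ : Subgroup G) (j + 1)).map (QuotientGroup.mk' S) := by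
      rw [Subgroup.map_commutator, h1, e, Subgroup.map_commutator]
    have h3 := Subgroup.le_comap_map (QuotientGroup.mk' S)
      ⁅dser (⊤ : Subgroup G) j ⊔ S, dser (⊤ : Subgroup G) j ⊔ S⁆
    rw [h2, Subgroup.comap_map_eq, QuotientGroup.ker_mk'] at h3
    exact h3
  by_contra hcon
  have hno : ∀ j, ¬ p ∣ (dser (⊤ : Subgroup G) (j + 1) ⊔ S).relIndex
      (dser (⊤ : Subgroup G) j ⊔ S) := by
    intro j hj
    have h1 := hnor j
    have h2 := hnor (j + 1)
    refine hcon ⟨dser (⊤ : Subgroup G) (j + 1) ⊔ S, dser (⊤ : Subgroup G) j ⊔ S,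
      inferInstance, inferInstance, le_sup_right, ?_, hcomm j, hj⟩
    refine lt_of_le_of_ne (sup_le_sup_right (hanti j) S) fun h => ?_
    rw [h, Subgroup.relIndex_self] at hj
    exact hp.one_lt.ne' (Nat.dvd_one.1 hj)
  have hall : ∀ j, ¬ p ∣ (dser (⊤ : Subgroup G) j ⊔ S).index := by
    intro j
    induction j with
    | zero =>
      have h1 : dser (⊤ : Subgroup G) 0 ⊔ S = ⊤ := top_sup_eq S
      rw [h1, Subgroup.index_top]
      exact fun h => hp.one_lt.ne' (Nat.dvd_one.1 h)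
    | succ j ih =>
      have h1 : dser (⊤ : Subgroup G) (j + 1) ⊔ S ≤ dser (⊤ : Subgroup G) j ⊔ S :=
        sup_le_sup_right (hanti j) S
      rw [← Subgroup.relIndex_mul_index h1]
      intro h
      rcases hp.dvd_mul.1 h with h2 | h2
      · exact hno j h2
      · exact ih h2
  have hn' : dser (⊤ : Subgroup G) n ⊔ S = S := sup_eq_right.2 hn
  have h := hall n
  rw [hn'] at h
  exact h hd

end Cry

end MP799fdf
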