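import Pool.Agent.Lib.MP_799fdf_al.Cry.Defs

set_option autoImplicit false

open scoped commutatorElement

namespace MP799fdf

namespace Cry

open Inn
open Cop (TT TA)
open Tw (TB TC)
open Tz (CZ Dg BC)
open Crt (Cyc lep)

/-- Conjugation with `g` on `G ⧸ Z` and on `R`. PROOF. `MulAut.conj (g : G ⧸ Z)` and `MulAut.conjNormal g`. -/
theorem lift_conj {G : Type} [Group G] (R Z : Subgroup G) [R.Normal] [Z.Normal] (g : G) :
    ∃ (σ : (G ⧸ Z) ≃* (G ⧸ Z)) (τ : R ≃* R), Lift σ τ ∧ (∀ x, σ x = (g : G ⧸ Z) * x * (g : G ⧸ Z)⁻¹) ∧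
      ∀ r : R, ((τ r : R) : G) = g * r * g⁻¹ := by
  refine ⟨MulAut.conj (g : G ⧸ Z), MulAut.conjNormal g, ?_, fun x => MulAut.conj_apply _ _,
    fun r => MulAut.conjNormal_apply g r⟩
  intro r
  rw [MulAut.conjNormal_apply, MulAut.conj_apply]
  rfl

end Cry

end MP799fdf
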