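import Pool.Agent.Lib.MP_799fdf_al.Cry.Sys
import Pool.Agent.Lib.MP_799fdf_al.Cry.Tam

set_option autoImplicit false

open scoped commutatorElement

namespace MP799fdf

namespace Cry

open Inn
open Cop (TT TA)
open Tw (TB TC)
open Tz (CZ Dg BC)
open Crt (Cyc lep)

variable {G : Type} [Group G]

/-- PROOF. Suppose that `Tx.Sec (xsys h1) τ H Y`, that `p` divides `Y.relIndex H`, that `B` acts trivially on `H / Y`, and that `p`
divides the order of `B.map (mk' TB)`. Let `H₁ = H.map R.subtype`, `Y₁ = Y.map R.subtype`, subgroups of `N`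
(elements of `H` are in the kernel of `lep`, that is in `R ⊓ cen R N ≤ N`, `loc_inf_cen`), `Y₁ < H₁`,
`Y₁.relIndex H₁ = Y.relIndex H`. They are normal in `G`: for `g : G` use the third clause of `Sec` with
`α = mk g` and `b = MulAut.conjNormal g`. `BC` holds for them: if `⁅c, g⁆ ∈ R ⊔ cen R N` for all `g`, then conjugation with `c`
(on `TA G τ` and on `R`) is a twist (`Tx.Tht`), so by the last clause of `Sec` `⁅c, z⁆ ∈ Y₁` for `z ∈ H₁`. So by
`hD` `p` does not divide `(R ⊔ cen R N).relIndex C`, where `C = cen H₁ Y₁`. Let `B₁ = B.comap (mk' (cen R N))`; `B₁ ≤ C` by the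
assumption on `B` with `b = MulAut.conjNormal g`. The order of `B.map (mk' TB)` is the order of the image of `B₁` in
`(G ⧸ cen) ⧸ TB`, i.e. `(R ⊔ cen R N).relIndex B₁` (`Subgroup.relIndex_ker`; see `Crt.card_dvd` for the kernel), which divides
`(R ⊔ cen R N).relIndex C` (`B₁ ⊔ (R ⊔ cen) ≤ C` by `Tw.sup_le_cen`; `Subgroup.relIndex_dvd_of_le_left`,
`Subgroup.relIndex_sup_right`, ...), a contradiction. -/
theorem tame_cu [Finite G] (h1 : CZ G) (τ : TT G) (hD : Dg τ.2) (H Y : Subgroup τ.1.1)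
    (hS : Tx.Sec (xsys h1) τ H Y) (p : ℕ) (hp : p.Prime) (hd : p ∣ Y.relIndex H)
    (B : Subgroup (TA G τ)) (hB : ∀ α ∈ B, ∀ b : τ.1.1 ≃* τ.1.1,
      (∀ x, lep τ (b x) = α * lep τ x * α⁻¹) → ∀ z ∈ H, b z * z⁻¹ ∈ Y) :
    ¬ p ∣ Nat.card (B.map (QuotientGroup.mk' (TB G τ))) := by
  have nR : τ.1.1.Normal := τ.2.nR
  have nZ : (cen τ.1.1 τ.1.2 τ.2.nN).Normal := inferInstance
  have hker : ∀ z ∈ H, lep τ z = 1 := hS.1
  have hHN : ∀ z ∈ H, (z : G) ∈ τ.1.2 := fun z hz =>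
    loc_inf_cen τ.2 ⟨z.2, (QuotientGroup.eq_one_iff _).1 (hker z hz)⟩
  -- conjugation
  have hcj : ∀ g : G, ∀ x : τ.1.1, lep τ (MulAut.conjNormal g x) =
      (g : TA G τ) * lep τ x * (g : TA G τ)⁻¹ := by
    intro g x
    change (((MulAut.conjNormal g x : τ.1.1) : G) : TA G τ) = _
    rw [MulAut.conjNormal_apply]
    rfl
  have hinj : Function.Injective τ.1.1.subtype := Subgroup.subtype_injective _
  have hlt : Y.map τ.1.1.subtype < H.map τ.1.1.subtype :=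
    lt_of_le_of_ne (Subgroup.map_mono hS.2.1.le)
      fun h => hS.2.1.ne (Subgroup.map_injective hinj h)
  have nH : (H.map τ.1.1.subtype).Normal := by
    refine ⟨?_⟩
    rintro _ ⟨z, hz, rfl⟩ g
    refine ⟨MulAut.conjNormal g z, (hS.2.2.1 (g : TA G τ) (MulAut.conjNormal g) (hcj g)).1 z hz, ?_⟩
    exact MulAut.conjNormal_apply g z
  have nY : (Y.map τ.1.1.subtype).Normal := by
    refine ⟨?_⟩
    rintro _ ⟨z, hz, rfl⟩ g
    refine ⟨MulAut.conjNormal g z, (hS.2.2.1 (g : TA G τ) (MulAut.conjNormal g) (hcj g)).2 z hz, ?_⟩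
    exact MulAut.conjNormal_apply g z
  have hHN1 : H.map τ.1.1.subtype ≤ τ.1.2 := by
    rintro _ ⟨z, hz, rfl⟩
    exact hHN z hz
  have hkey : ∀ (c : G) (z : τ.1.1), MulAut.conjNormal c z * z⁻¹ ∈ Y →
      ⁅c, (z : G)⁆ ∈ Y.map τ.1.1.subtype := by
    intro c z hz
    refine ⟨_, hz, ?_⟩
    rw [commutatorElement_def]
    change (((MulAut.conjNormal c z : τ.1.1) : G)) * (z : G)⁻¹ = _
    rw [MulAut.conjNormal_apply]
  have hBC : BC τ.2 (H := H.map τ.1.1.subtype) nY := by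
    intro c hc
    rw [mem_cen]
    rintro _ ⟨z, hz, rfl⟩
    have hq2 : ∀ x : TA G τ, QuotientGroup.mk' (TB G τ) (MulAut.conj (c : TA G τ) x) =
        QuotientGroup.mk' (TB G τ) x := by
      intro x
      obtain ⟨x, rfl⟩ := QuotientGroup.mk_surjective x
      rw [MulAut.conj_apply]
      refine (QuotientGroup.eq.2 ?_).symm
      have h2 : x⁻¹ * (c * x * c⁻¹) ∈ τ.1.1 ⊔ cen τ.1.1 τ.1.2 τ.2.nN := by
        have h3 := Subgroup.inv_mem _ (hc x⁻¹)
        have h4 : ⁅c, x⁻¹⁆⁻¹ = x⁻¹ * (c * x * c⁻¹) := by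
          simp only [commutatorElement_def]
          group
        rwa [h4] at h3
      have h3 : QuotientGroup.mk' (cen τ.1.1 τ.1.2 τ.2.nN) (x⁻¹ * (c * x * c⁻¹)) ∈
          (τ.1.1 ⊔ cen τ.1.1 τ.1.2 τ.2.nN).map (QuotientGroup.mk' (cen τ.1.1 τ.1.2 τ.2.nN)) :=
        Subgroup.mem_map_of_mem _ h2
      rw [Subgroup.map_sup, QuotientGroup.map_mk'_self, sup_bot_eq] at h3
      exact h3
    exact hkey c z (hS.2.2.2 ⟨(MulAut.conj (c : TA G τ), MulAut.conjNormal c), hcj c, hq2⟩ z hz)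
  have hrel : (Y.map τ.1.1.subtype).relIndex (H.map τ.1.1.subtype) = Y.relIndex H :=
    Subgroup.relIndex_map_map_of_injective _ _ hinj
  have hno := hD.2 (H.map τ.1.1.subtype) (Y.map τ.1.1.subtype) nH nY hlt hHN1 hBC p hp
    (by rw [hrel]; exact hd)
  intro hcard
  apply hno
  -- the kernel
  obtain ⟨f, hf⟩ : ∃ f : G →* TC G τ, f = (QuotientGroup.mk' (TB G τ)).comp
    (QuotientGroup.mk' (cen τ.1.1 τ.1.2 τ.2.nN)) := ⟨_, rfl⟩
  have hfk : f.ker = τ.1.1 ⊔ cen τ.1.1 τ.1.2 τ.2.nN := by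
    rw [hf, ← MonoidHom.comap_ker, QuotientGroup.ker_mk']
    have h3 := Subgroup.comap_map_eq (QuotientGroup.mk' (cen τ.1.1 τ.1.2 τ.2.nN)) τ.1.1
    rw [QuotientGroup.ker_mk'] at h3
    exact h3
  have hBm : B.map (QuotientGroup.mk' (TB G τ)) =
      (B.comap (QuotientGroup.mk' (cen τ.1.1 τ.1.2 τ.2.nN))).map f := by
    rw [hf, ← Subgroup.map_map, Subgroup.map_comap_eq_self_of_surjective
      (QuotientGroup.mk'_surjective _)]
  rw [hBm, ← Subgroup.relIndex_ker, hfk] at hcard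
  have nK : (τ.1.1 ⊔ cen τ.1.1 τ.1.2 τ.2.nN).Normal := Subgroup.sup_normal _ _
  have hBC1 : B.comap (QuotientGroup.mk' (cen τ.1.1 τ.1.2 τ.2.nN)) ≤
      cen (H.map τ.1.1.subtype) (Y.map τ.1.1.subtype) nY := by
    intro g hg
    rw [mem_cen]
    rintro _ ⟨z, hz, rfl⟩
    exact hkey g z (hB (g : TA G τ) hg (MulAut.conjNormal g) (hcj g) z hz)
  have hle : B.comap (QuotientGroup.mk' (cen τ.1.1 τ.1.2 τ.2.nN)) ⊔
      (τ.1.1 ⊔ cen τ.1.1 τ.1.2 τ.2.nN) ≤
      cen (H.map τ.1.1.subtype) (Y.map τ.1.1.subtype) nY :=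
    sup_le hBC1 (Tw.sup_le_cen τ.2 (h1 _ _ τ.2) nY hHN1)
  rw [← Subgroup.relIndex_sup_right] at hcard
  exact hcard.trans ⟨_, (Subgroup.relIndex_mul_relIndex _ _ _ le_sup_right hle).symm⟩

end Cry

end MP799fdf
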