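import Pool.Agent.Lib.MP_799fdf_al.Cry.Defs4

set_option autoImplicit false

open scoped commutatorElement

namespace MP799fdf

namespace Cry

open Inn
open Cop (TT TA)
open Tw (TB TC)
open Tz (CZ Dg BC)
open Crt (Cyc lep)

/-- PROOF. The same `H, Y`. `BC`: let `⁅c, g⁆ ∈ R ⊔ cen` for all `g`. `lift_conj` (`Cry/Tam.lean`) for `c` gives `σ, t` with `Lift`; it is
trivial modulo `R Z` (`Tri`: see the proof of `tame_crit` in `Cry/TamB.lean`). So for `z ∈ H` `⁅c, z⁆ = t z * z⁻¹ ∈ Y`. -/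
theorem cri_of_criD {G : Type} [Group G] [Finite G] (τ : TT G) (p : ℕ) (hc : CriD p τ) :
    Cri p τ.2 := by
  obtain ⟨hp, H, Y, hHn, hY, hlt, hle, hlift, hdvd, hdvd2⟩ := hc
  have nR : τ.1.1.Normal := τ.2.nR
  have hBC : BC τ.2 (H := H) hY := by
    intro c hc
    obtain ⟨σ, t, h1, h2, h3⟩ := lift_conj τ.1.1 (ZZ τ) c
    have htri : Tri τ.1.1 σ := by
      intro x y hxy
      rw [h2] at hxy
      have h4 : ((c * x * c⁻¹ : G) : G ⧸ ZZ τ) = (y : G ⧸ ZZ τ) := by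
        rw [← hxy]
        rfl
      have h5 : (c * x * c⁻¹)⁻¹ * y ∈ ZZ τ := QuotientGroup.eq.1 h4
      have h6 : x⁻¹ * y = ⁅c, x⁻¹⁆⁻¹ * ((c * x * c⁻¹)⁻¹ * y) := by
        rw [commutatorElement_def]
        group
      rw [h6]
      refine Subgroup.mul_mem _ (Subgroup.inv_mem _ (hc x⁻¹)) ?_
      exact Subgroup.mem_sup_right h5
    rw [mem_cen]
    intro x hx
    have hxR : x ∈ τ.1.1 := τ.2.lt.le (hle hx)
    have h4 := hlift σ t h1 htri ⟨x, hxR⟩ hx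
    rw [h3] at h4
    rw [commutatorElement_def]
    exact h4
  exact ⟨hp, H, Y, hHn, hY, hlt, hle, hBC, hdvd, hdvd2⟩

end Cry

end MP799fdf
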